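import Pool.Agent.T2h60.LA.LDef
import Pool.Agent.R615.K1.PT
import Pool.Agent.Y483.LInj
import Pool.Agent.Y483.PI.Tr

/-!
# The rational quadratic L-groups of group rings over a ring with involution

The functor `G ↦ L₀(A[G]; ε) ⊗ ℚ` for any ring with involution `A` has transfers along pairs.
-/

set_option autoImplicit false

namespace Pool.Agent.T2h60.LA

open Pool.Agent.Y483 Pool.Agent.Y483.PW Pool.Agent.Y483.PI Pool.Agent.Y477.IW Pool.Agent.Y110.KW
  Pool.Agent.Y75.MQ CategoryTheory

universe v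

/-- forget the vector space structure of the values -/
def toI (E : LFunctor.{v}) : IFunctor.{v} where
  obj R _ _ := E.obj R
  grp R _ _ := E.grp R
  map f := (E.map f).toAddMonoidHom
  map_id R _ _ x := E.map_id R x
  map_comp g f x := E.map_comp g f x
  map_add f g h h1 h2 x := E.map_add f g h h1 h2 x
  map_conj f g u h1 h2 h3 x := E.map_conj f g u h1 h2 h3 x
  corner_inj S _ _ A a := E.corner_inj S A a

theorem ex (E : LFunctor.{0}) (A : Type) [Ring A] [StarRing A] {G X K : Type} [Group G] [Group K]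
    (κ : FinPair G X K) :
    ∃ Φ : E.obj (MonoidAlgebra A G) →ₗ[ℚ] E.obj (MonoidAlgebra A K),
      ∀ (G₀ : Type) [Group G₀] (j : G₀ →* G) (Y : Finset X) (lc ld : X → (G₀ →* K)),
        (∀ a ∈ Y, ∀ g, κ.σ (j g) a = a ∧ lc a g = κ.c (j g) a ∧ ld a g = κ.d (j g) a) →
        (∀ a ∉ Y, ∀ g, κ.c (j g) a = κ.d (j g) a) → ∀ x : E.obj (MonoidAlgebra A G₀),
          Φ (E.map (grMap A j) x) =
            ∑ a ∈ Y, (E.map (grMap A (lc a)) x - E.map (grMap A (ld a)) x) := by
  classical
  by_cases hA : Nonempty X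
  · obtain ⟨a₀⟩ := hA
    obtain ⟨L, hL⟩ := LinearMap.exists_leftInverse_of_injective
      (E.map (corner (MonoidAlgebra A K) X a₀))
      (LinearMap.ker_eq_bot.mpr (E.corner_inj _ X a₀))
    refine ⟨L ∘ₗ (E.map (pHom A κ) - E.map (pHom A (pD κ))), ?_⟩
    intro G₀ _ j Y lc ld hY1 hY2 x
    have h := pre (toI E) A κ a₀ j Y lc ld hY1 hY2 x
    have h2 : E.map (pHom A κ) (E.map (grMap A j) x)
        - E.map (pHom A (pD κ)) (E.map (grMap A j) x) =
        E.map (corner (MonoidAlgebra A K) X a₀)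
          (∑ a ∈ Y, (E.map (grMap A (lc a)) x - E.map (grMap A (ld a)) x)) := h
    rw [LinearMap.comp_apply, LinearMap.sub_apply, h2]
    exact DFunLike.congr_fun hL _
  · refine ⟨0, ?_⟩
    intro G₀ _ j Y lc ld hY1 hY2 x
    have : Y = ∅ := by
      rw [Finset.eq_empty_iff_forall_notMem]
      intro a _
      exact hA ⟨a⟩
    rw [this, Finset.sum_empty]
    rfl

/-- **transfers along pairs for L-theory with coefficients in any ring with involution** -/
theorem hasPT_lA (A : Type) [Ring A] [StarRing A] (ε : ℤˣ) : HasPT (lA A ε) := by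
  intro G X K _ _ κ
  exact ex (lFunctor ε) A κ

end Pool.Agent.T2h60.LA
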