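import Pool.Agent.T2h60.LA.LCol
import Pool.Agent.T2h60.LA.Fun
import Pool.Agent.R615.KU.Cls2

/-!
# Directed colimits of groups with injective rational assembly maps
-/

set_option autoImplicit false

namespace Pool.Agent.T2h60.LA

open Pool.Agent.Y483 Pool.Agent.Y110.KW Pool.Agent.Y75.MQ Pool.Agent.R793.Mag CategoryTheory
  DirectSum Pool.Agent.R615.KU Pool.Agent.Y477.IW

section hom

variable {I : Type} [Preorder I] {G : I → Type} [∀ i, Group (G i)] {L : Type} [Group L]
  {f : ∀ i j, i ≤ j → G i →* G j} {c : ∀ i, G i →* L}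

theorem mp_eq {X Y : Type} (n : ℕ) (g : X → Y) (z : T n X ℚ) :
    mp n g LinearMap.id z = Finsupp.mapDomain (fun v : Fin n → X => g ∘ v) z := by
  induction z using Finsupp.induction_linear with
  | zero => rw [map_zero, Finsupp.mapDomain_zero]
  | add x y hx hy => rw [map_add, hx, hy, Finsupp.mapDomain_add]
  | single v r =>
    rw [mp_single, Finsupp.mapDomain_single]
    rfl

/-- chains -/
theorem DS.chain (d : DS (fun i j h => f i j h) (fun i => c i)) (n : ℕ) :
    DS (X := fun i => T n (G i) ℚ) (Y := T n L ℚ) (fun i j h z => mp n (f i j h) LinearMap.id z)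
      (fun i z => mp n (c i) LinearMap.id z) := by
  have h := (d.pi (Fin n)).finsupp ℚ
  have e1 : (fun i j (h : i ≤ j) (z : T n (G i) ℚ) => mp n (f i j h) LinearMap.id z) =
      (fun i j h => Finsupp.mapDomain (fun (x : Fin n → G i) a => f i j h (x a))) := by
    funext i j h z
    exact mp_eq n (f i j h) z
  have e2 : (fun i (z : T n (G i) ℚ) => mp n (c i) LinearMap.id z) =
      (fun i => Finsupp.mapDomain (fun (x : Fin n → G i) a => c i (x a))) := by
    funext i z
    exact mp_eq n (c i) z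
  rw [e1, e2]
  exact h

/-- homology classes come from a finite stage -/
theorem hq_lift (d : DS (fun i j h => f i j h) (fun i => c i)) (n : ℕ) (x : HQ n L) :
    ∃ i, ∃ y : HQ n (G i), hqMap (c i) n y = x := by
  obtain ⟨z, hz⟩ := exists_rpr (Rep.trivial ℚ L ℚ) n x
  obtain ⟨i, w, hw⟩ := (d.chain n).surj z
  have hcyc := hz.cyc
  have key : ∃ j, ∃ h : i ≤ j, Cyc (tQ (G j)) n (mp n (f i j h) LinearMap.id w) := by
    cases n with
    | zero => exact ⟨i, le_rfl, Cyc.zero _ _⟩
    | succ n =>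
      have h1 : dd (tQ L) n z = 0 := (cyc_succ _ _ _).1 hcyc
      have h2 : mp n (c i) LinearMap.id (dd (tQ (G i)) n w) = mp n (c i) LinearMap.id 0 := by
        rw [← dd_mp (ρ := tQ (G i)) (τ := tQ L) (c i) LinearMap.id (fun _ _ => rfl) n w, map_zero]
        exact (congrArg (dd (tQ L) n) hw).trans h1
      obtain ⟨j, hj, e⟩ := (d.chain n).inj i _ _ h2
      refine ⟨j, hj, (cyc_succ _ _ _).2 ?_⟩
      rw [dd_mp (ρ := tQ (G i)) (τ := tQ (G j)) (f i j hj) LinearMap.id (fun _ _ => rfl) n w]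
      exact e.trans (map_zero _)
  obtain ⟨j, hj, hc⟩ := key
  obtain ⟨y, hy⟩ := exists_class (A := Rep.trivial ℚ (G j) ℚ) n _ hc
  refine ⟨j, y, ?_⟩
  have h1 := hy.hq (c j)
  have h2 : mp n (c j) LinearMap.id (mp n (f i j hj) LinearMap.id w) = z :=
    ((d.chain n).coc i j hj w).trans hw
  rw [h2] at h1
  exact Rp.uniq h1 hz

theorem comp_eq (d : DS (fun i j h => f i j h) (fun i => c i)) (i j : I) (h : i ≤ j) :
    (c j).comp (f i j h) = c i := MonoidHom.ext fun x => d.coc i j h x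

/-- finite families of homology classes come from a finite stage -/
theorem hb_lift (d : DS (fun i j h => f i j h) (fun i => c i)) {B : Type} (e : B → ℕ)
    (x : HB e L) : ∃ i, ∃ y : HB e (G i), hbMap e (c i) y = x := by
  classical
  induction x using DirectSum.induction_on with
  | zero =>
    obtain ⟨i⟩ := d.ne
    exact ⟨i, 0, map_zero _⟩
  | of b x =>
    obtain ⟨i, y, rfl⟩ := hq_lift d (e b) x
    exact ⟨i, DirectSum.of (fun b : B => HQ (e b) (G i)) b y, hbMap_of e (c i) b y⟩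
  | add x y hx hy =>
    obtain ⟨i, x, rfl⟩ := hx
    obtain ⟨j, y, rfl⟩ := hy
    obtain ⟨k, hik, hjk⟩ := d.dir i j
    refine ⟨k, hbMap e (f i k hik) x + hbMap e (f j k hjk) y, ?_⟩
    rw [map_add, ← hbMap_comp, ← hbMap_comp, comp_eq d, comp_eq d]

/-- the product with a group -/
theorem DS.times (d : DS (fun i j h => f i j h) (fun i => c i)) (T : Type) [Group T] :
    DS (X := fun i => G i × T) (Y := L × T) (fun i j h => timesT (f i j h) T)
      (fun i => timesT (c i) T) where
  dir := d.dir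
  ne := d.ne
  id i h x := Prod.ext (d.id i h x.1) rfl
  comp i j k h h' x := Prod.ext (d.comp i j k h h' x.1) rfl
  coc i j h x := Prod.ext (d.coc i j h x.1) rfl
  surj y := by
    obtain ⟨i, x, hx⟩ := d.surj y.1
    exact ⟨i, (x, y.2), Prod.ext hx rfl⟩
  inj i x y h := by
    have h' : ((c i x.1, x.2) : L × T) = (c i y.1, y.2) := h
    obtain ⟨j, hj, e⟩ := d.inj i x.1 y.1 (congrArg Prod.fst h')
    exact ⟨j, hj, Prod.ext e (congrArg (fun z : L × T => z.2) h')⟩

end hom

/-- The functor commutes with directed colimits (injectivity). -/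
def Ct (E : GrpCat.{0} ⥤ ModuleCat.{0} ℚ) : Prop :=
  ∀ (I : Type) [Preorder I] (G : I → Type) [∀ i, Group (G i)] (L : Type) [Group L]
    (f : ∀ i j, i ≤ j → G i →* G j) (c : ∀ i, G i →* L),
    DS (fun i j h => f i j h) (fun i => c i) → ∀ (i : I) (x : E.obj (GrpCat.of (G i))),
      emap E (c i) x = 0 → ∃ j, ∃ h : i ≤ j, emap E (f i j h) x = 0

theorem ct_lA (A : Type) [Ring A] [StarRing A] (ε : ℤˣ) : Ct (lA A ε) := by
  intro I _ G _ L _ f c d i x hx
  exact lq_inj (d.gr A) (ε := ε) (i := i) x hx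

/-- **closure under directed colimits** -/
theorem det_colim {E : GrpCat.{0} ⥤ ModuleCat.{0} ℚ} (hE : Ct E) {I : Type} [Preorder I]
    {G : I → Type} [∀ i, Group (G i)] {L : Type} [Group L]
    {f : ∀ i j, i ≤ j → G i →* G j} {c : ∀ i, G i →* L}
    (d : DS (fun i j h => f i j h) (fun i => c i)) (h : ∀ i, Det E (G i)) : Det E L := by
  intro T _ I' α hα
  change LinearMap.ker (tb (dg (I := I')) (fam α) L) = ⊥
  rw [eq_bot_iff]
  intro x hx
  rw [Submodule.mem_bot]
  obtain ⟨i, y, rfl⟩ := hb_lift d (dg (I := I')) x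
  have h1 : emap E (timesT (c i) T) (tb (dg (I := I')) (fam α) (G i) y) = 0 :=
    (tb_nat (dg (I := I')) (fam α) (c i) y).trans (LinearMap.mem_ker.1 hx)
  obtain ⟨j, hj, e⟩ := hE I (fun i => G i × T) (L × T) (fun i j h => timesT (f i j h) T)
    (fun i => timesT (c i) T) (d.times T) i _ h1
  have h2 : tb (dg (I := I')) (fam α) (G j) (hbMap (dg (I := I')) (f i j hj) y) = 0 :=
    (tb_nat (dg (I := I')) (fam α) (f i j hj) y).symm.trans e
  have h3 : LinearMap.ker (tb (dg (I := I')) (fam α) (G j)) = ⊥ := h j T I' α hα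
  have h4 : hbMap (dg (I := I')) (f i j hj) y = 0 := by
    rw [← Submodule.mem_bot ℚ, ← h3]
    exact LinearMap.mem_ker.2 h2
  rw [← comp_eq d i j hj, hbMap_comp, h4, map_zero]

/-- the colimit of a directed system of groups -/
theorem DS.ofGroups {I : Type} [Preorder I] [Nonempty I] (hd : ∀ i j : I, ∃ k, i ≤ k ∧ j ≤ k)
    {G : I → Type} [∀ i, Group (G i)] {L : Type} [Group L] {f : ∀ i j, i ≤ j → G i →* G j}
    {c : ∀ i, G i →* L} (h1 : ∀ i (h : i ≤ i) (x : G i), f i i h x = x)
    (h2 : ∀ i j k (h : i ≤ j) (h' : j ≤ k) (x : G i), f j k h' (f i j h x) = f i k (h.trans h') x)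
    (h3 : ∀ i j (h : i ≤ j) (x : G i), c j (f i j h x) = c i x)
    (h4 : ∀ y : L, ∃ i, ∃ x : G i, c i x = y)
    (h5 : ∀ i (x : G i), c i x = 1 → ∃ j, ∃ h : i ≤ j, f i j h x = 1) :
    DS (fun i j h => f i j h) (fun i => c i) where
  dir := hd
  ne := inferInstance
  id := h1
  comp := h2
  coc := h3
  surj := h4
  inj i x y h := by
    obtain ⟨j, hj, e⟩ := h5 i (x * y⁻¹) (by
      rw [map_mul, map_inv]
      exact mul_inv_eq_one.2 h)
    refine ⟨j, hj, ?_⟩
    rw [map_mul, map_inv] at e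
    exact mul_inv_eq_one.1 e

end Pool.Agent.T2h60.LA
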