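import Pool.Agent.Y477.IW.GR

/-!
# Directed colimits of sets, finite powers, finitely supported functions and group rings
-/

set_option autoImplicit false

namespace Pool.Agent.T2h60.LA

open Pool.Agent.Y483 Pool.Agent.Y477.IW

universe u v

/-- `Y` is the colimit of the directed system of the sets `X i` with the maps `f i j`. -/
structure DS {I : Type} [Preorder I] {X : I → Type u} {Y : Type v}
    (f : ∀ i j, i ≤ j → X i → X j) (c : ∀ i, X i → Y) : Prop where
  dir : ∀ i j : I, ∃ k, i ≤ k ∧ j ≤ k
  ne : Nonempty I
  id : ∀ i (h : i ≤ i) (x : X i), f i i h x = x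
  comp : ∀ i j k (h : i ≤ j) (h' : j ≤ k) (x : X i), f j k h' (f i j h x) = f i k (h.trans h') x
  coc : ∀ i j (h : i ≤ j) (x : X i), c j (f i j h x) = c i x
  surj : ∀ y : Y, ∃ i, ∃ x : X i, c i x = y
  inj : ∀ i (x y : X i), c i x = c i y → ∃ j, ∃ h : i ≤ j, f i j h x = f i j h y

section

variable {I : Type} [Preorder I] {X : I → Type u} {Y : Type v}
  {f : ∀ i j, i ≤ j → X i → X j} {c : ∀ i, X i → Y}

theorem DS.up (d : DS f c) {κ : Type*} [Finite κ] (i : κ → I) : ∃ k, ∀ a, i a ≤ k := by
  have := Fintype.ofFinite κ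
  have h : ∀ S : Finset κ, ∃ k, ∀ a ∈ S, i a ≤ k := by
    classical
    intro S
    induction S using Finset.induction_on with
    | empty =>
      obtain ⟨k⟩ := d.ne
      exact ⟨k, by simp⟩
    | insert a S _ ih =>
      obtain ⟨k, hk⟩ := ih
      obtain ⟨m, h1, h2⟩ := d.dir (i a) k
      refine ⟨m, fun b hb => ?_⟩
      rcases Finset.mem_insert.1 hb with rfl | hb
      · exact h1
      · exact (hk b hb).trans h2
  obtain ⟨k, hk⟩ := h Finset.univ
  exact ⟨k, fun a => hk a (Finset.mem_univ a)⟩

/-- the equality at a later stage persists -/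
theorem DS.later (d : DS f c) {i j k : I} (h : i ≤ j) (h' : j ≤ k) {x y : X i}
    (e : f i j h x = f i j h y) : f i k (h.trans h') x = f i k (h.trans h') y := by
  rw [← d.comp i j k h h', ← d.comp i j k h h', e]

/-- finite powers -/
theorem DS.pi (d : DS f c) (κ : Type*) [Finite κ] :
    DS (X := fun i => κ → X i) (Y := κ → Y) (fun i j h x a => f i j h (x a))
      (fun i x a => c i (x a)) where
  dir := d.dir
  ne := d.ne
  id i h x := funext fun a => d.id i h (x a)
  comp i j k h h' x := funext fun a => d.comp i j k h h' (x a)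
  coc i j h x := funext fun a => d.coc i j h (x a)
  surj y := by
    choose i x hx using fun a => d.surj (y a)
    obtain ⟨k, hk⟩ := d.up i
    exact ⟨k, fun a => f (i a) k (hk a) (x a), funext fun a => by rw [d.coc, hx]⟩
  inj i x y h := by
    choose j hj e using fun a => d.inj i (x a) (y a) (congrFun h a)
    obtain ⟨k, hk⟩ := d.up (fun o : Option κ => o.elim i j)
    refine ⟨k, hk none, funext fun a => ?_⟩
    exact d.later (hj a) (hk (some a)) (e a)

/-- finitely supported functions -/
theorem DS.finsupp (d : DS f c) (M : Type*) [AddCommGroup M] :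
    DS (X := fun i => X i →₀ M) (Y := Y →₀ M) (fun i j h => Finsupp.mapDomain (f i j h))
      (fun i => Finsupp.mapDomain (c i)) where
  dir := d.dir
  ne := d.ne
  id i h x := by
    have : f i i h = _root_.id := funext fun z => d.id i h z
    rw [this, Finsupp.mapDomain_id]
  comp i j k h h' x := by
    rw [← Finsupp.mapDomain_comp]
    congr 1
    exact funext fun z => d.comp i j k h h' z
  coc i j h x := by
    rw [← Finsupp.mapDomain_comp]
    congr 1
    exact funext fun z => d.coc i j h z
  surj y := by
    have hcc : ∀ i j (h : i ≤ j) (x : X i →₀ M), Finsupp.mapDomain (c j)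
        (Finsupp.mapDomain (f i j h) x) = Finsupp.mapDomain (c i) x := by
      intro i j h x
      rw [← Finsupp.mapDomain_comp]
      congr 1
      exact funext fun z => d.coc i j h z
    induction y using Finsupp.induction_linear with
    | zero =>
      obtain ⟨i⟩ := d.ne
      exact ⟨i, 0, Finsupp.mapDomain_zero⟩
    | add y z hy hz =>
      obtain ⟨i, x, rfl⟩ := hy
      obtain ⟨j, w, rfl⟩ := hz
      obtain ⟨k, hik, hjk⟩ := d.dir i j
      exact ⟨k, Finsupp.mapDomain (f i k hik) x + Finsupp.mapDomain (f j k hjk) w, by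
        rw [Finsupp.mapDomain_add, hcc, hcc]⟩
    | single a m =>
      obtain ⟨i, x, rfl⟩ := d.surj a
      exact ⟨i, Finsupp.single x m, Finsupp.mapDomain_single⟩
  inj i x y h := by
    classical
    -- pairs of points of the support with the same image
    let P := {p : X i × X i // p.1 ∈ (x - y).support ∧ p.2 ∈ (x - y).support ∧ c i p.1 = c i p.2}
    have hfin : Finite P := by
      refine Finite.of_injective
        (fun p : P => ((⟨p.1.1, p.2.1⟩, ⟨p.1.2, p.2.2.1⟩) :
          ((x - y).support : Set (X i)) × ((x - y).support : Set (X i)))) ?_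
      intro p q hpq
      apply Subtype.ext
      exact Prod.ext (congrArg (fun z => z.1.1) hpq) (congrArg (fun z => z.2.1) hpq)
    choose j hj e using fun p : P => d.inj i p.1.1 p.1.2 p.2.2.2
    obtain ⟨k, hk⟩ := d.up (fun o : Option P => o.elim i j)
    have hik : i ≤ k := hk none
    refine ⟨k, hik, ?_⟩
    have h0 : Finsupp.mapDomain (c i) (x - y) = 0 := by
      rw [sub_eq_add_neg, Finsupp.mapDomain_add]
      have h2 : Finsupp.mapDomain (c i) (-y) = - Finsupp.mapDomain (c i) y :=
        map_neg (Finsupp.mapDomain.addMonoidHom (c i)) y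
      rw [h2, h, add_neg_cancel]
    have h1 : Finsupp.mapDomain (c k) (Finsupp.mapDomain (f i k hik) (x - y)) = 0 := by
      rw [← Finsupp.mapDomain_comp, ← h0]
      congr 1
      exact funext fun z => d.coc i k hik z
    have h2 : Finsupp.mapDomain (f i k hik) (x - y) = 0 := by
      have hinj : Set.InjOn (c k) (f i k hik '' ((x - y).support : Set (X i))) := by
        rintro _ ⟨s, hs, rfl⟩ _ ⟨t, ht, rfl⟩ hst
        rw [d.coc, d.coc] at hst
        exact d.later (hj ⟨(s, t), hs, ht, hst⟩) (hk (some ⟨(s, t), hs, ht, hst⟩)) (e _)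
      refine Finsupp.mapDomain_injOn _ hinj ?_ ?_ ?_
      · intro z hz
        have h3 := Finsupp.mapDomain_support hz
        rw [Finset.mem_image] at h3
        obtain ⟨s, hs, rfl⟩ := h3
        exact ⟨s, hs, rfl⟩
      · intro z hz
        simp at hz
      · rw [h1, Finsupp.mapDomain_zero]
    have h3 : Finsupp.mapDomain (f i k hik) (x - y) =
        Finsupp.mapDomain (f i k hik) x - Finsupp.mapDomain (f i k hik) y :=
      map_sub (Finsupp.mapDomain.addMonoidHom (f i k hik)) x y
    rw [h3, sub_eq_zero] at h2
    exact h2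

end

section groups

variable {I : Type} [Preorder I] {G : I → Type} [∀ i, Group (G i)] {L : Type} [Group L]
  {f : ∀ i j, i ≤ j → G i →* G j} {c : ∀ i, G i →* L}

theorem grMap_coeff (A : Type) [Ring A] [StarRing A] {G K : Type} [Group G] [Group K] (f : G →* K)
    (x : MonoidAlgebra A G) : (grMap A f x).coeff = Finsupp.mapDomain f x.coeff := by
  induction x using MonoidAlgebra.induction_linear with
  | zero => simp
  | add x y hx hy => rw [map_add, MonoidAlgebra.coeff_add, hx, hy, MonoidAlgebra.coeff_add,
      Finsupp.mapDomain_add]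
  | single g r =>
    rw [grMap_single, MonoidAlgebra.coeff_single, MonoidAlgebra.coeff_single,
      Finsupp.mapDomain_single]

/-- group rings -/
theorem DS.gr (d : DS (fun i j h => f i j h) (fun i => c i)) (A : Type) [Ring A] [StarRing A] :
    DS (X := fun i => MonoidAlgebra A (G i)) (Y := MonoidAlgebra A L)
      (fun i j h => grMap A (f i j h)) (fun i => grMap A (c i)) where
  dir := d.dir
  ne := d.ne
  id i h x := by
    apply MonoidAlgebra.coeff_injective
    rw [grMap_coeff]
    exact (d.finsupp A).id i h x.coeff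
  comp i j k h h' x := by
    apply MonoidAlgebra.coeff_injective
    rw [grMap_coeff, grMap_coeff, grMap_coeff]
    exact (d.finsupp A).comp i j k h h' x.coeff
  coc i j h x := by
    apply MonoidAlgebra.coeff_injective
    rw [grMap_coeff, grMap_coeff, grMap_coeff]
    exact (d.finsupp A).coc i j h x.coeff
  surj y := by
    obtain ⟨i, x, hx⟩ := (d.finsupp A).surj y.coeff
    refine ⟨i, MonoidAlgebra.ofCoeff x, ?_⟩
    apply MonoidAlgebra.coeff_injective
    rw [grMap_coeff, MonoidAlgebra.coeff_ofCoeff]
    exact hx
  inj i x y h := by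
    have h1 : Finsupp.mapDomain (c i) x.coeff = Finsupp.mapDomain (c i) y.coeff := by
      rw [← grMap_coeff, ← grMap_coeff, h]
    obtain ⟨j, hj, e⟩ := (d.finsupp A).inj i x.coeff y.coeff h1
    refine ⟨j, hj, ?_⟩
    apply MonoidAlgebra.coeff_injective
    rw [grMap_coeff, grMap_coeff]
    exact e

end groups

end Pool.Agent.T2h60.LA
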