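import Pool.Agent.T2h60.LA.DS
import Pool.Agent.Y483.LGroup

/-!
# Rational quadratic L-groups commute with directed colimits
-/

set_option autoImplicit false

namespace Pool.Agent.T2h60.LA

open Pool.Agent.Y483 Matrix

variable {I : Type} [Preorder I] {S : I → Type} [∀ i, Ring (S i)] [∀ i, StarRing (S i)]
  {R : Type} [Ring R] [StarRing R] {f : ∀ i j, i ≤ j → S i →⋆ₙ+* S j} {c : ∀ i, S i →⋆ₙ+* R}

/-- matrices -/
theorem DS.mat (d : DS (fun i j h => f i j h) (fun i => c i)) (m n : Type) [Finite m] [Finite n] :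
    DS (X := fun i => Matrix m n (S i)) (Y := Matrix m n R) (fun i j h M => M.map (f i j h))
      (fun i M => M.map (c i)) :=
  (d.pi n).pi m

section expr

variable (ε : ℤˣ) {n : ℕ}

/-- the left hand sides of the defining equations of a form -/
def lhs {R : Type} [Ring R] [StarRing R] (θ ψ : Matrix (Fin n) (Fin n) R) :
    Fin 3 → Matrix (Fin n) (Fin n) R :=
  ![dag ε ψ, ψ * (θ + dag ε θ) * ψ, (θ + dag ε θ) * ψ * θ * (ψ * (θ + dag ε θ))]

/-- the right hand sides -/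
def rhs {R : Type} [Ring R] [StarRing R] (θ ψ : Matrix (Fin n) (Fin n) R) :
    Fin 3 → Matrix (Fin n) (Fin n) R := ![ψ, ψ, θ]

variable {R T : Type} [Ring R] [StarRing R] [Ring T] [StarRing T] (g : R →⋆ₙ+* T)

theorem lhs_map (θ ψ : Matrix (Fin n) (Fin n) R) (a : Fin 3) :
    lhs ε (θ.map g) (ψ.map g) a = (lhs ε θ ψ a).map g := by
  fin_cases a
  · exact dag_map g ψ
  · change ψ.map g * (θ.map g + dag ε (θ.map g)) * ψ.map g = (ψ * (θ + dag ε θ) * ψ).map g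
    rw [dag_map, ← Matrix.map_add g (map_add g), ← Matrix.map_mul, ← Matrix.map_mul]
  · change (θ.map g + dag ε (θ.map g)) * ψ.map g * θ.map g * (ψ.map g * (θ.map g + dag ε (θ.map g)))
      = ((θ + dag ε θ) * ψ * θ * (ψ * (θ + dag ε θ))).map g
    rw [dag_map, ← Matrix.map_add g (map_add g), ← Matrix.map_mul, ← Matrix.map_mul,
      ← Matrix.map_mul, ← Matrix.map_mul]

theorem rhs_map (θ ψ : Matrix (Fin n) (Fin n) R) (a : Fin 3) :
    rhs (θ.map g) (ψ.map g) a = (rhs θ ψ a).map g := by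
  fin_cases a <;> rfl

theorem lhs_eq_rhs (x : QForm R ε (Fin n)) (a : Fin 3) : lhs ε x.θ x.ψ a = rhs x.θ x.ψ a := by
  fin_cases a
  · exact x.dag_psi
  · exact x.psi_phi_psi
  · exact x.compress

/-- the form given by two matrices -/
def mkQ (θ ψ : Matrix (Fin n) (Fin n) R) (h : ∀ a, lhs ε θ ψ a = rhs θ ψ a) :
    QForm R ε (Fin n) where
  θ := θ
  ψ := ψ
  dag_psi := h 0
  psi_phi_psi := h 1
  compress := h 2

end expr

/-- forms of a given size -/
theorem DS.qform (d : DS (fun i j h => f i j h) (fun i => c i)) (ε : ℤˣ) (n : ℕ) :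
    DS (X := fun i => QForm (S i) ε (Fin n)) (Y := QForm R ε (Fin n))
      (fun i j h x => x.map (f i j h)) (fun i x => x.map (c i)) where
  dir := d.dir
  ne := d.ne
  id i h x := QForm.ext ((d.mat (Fin n) (Fin n)).id i h x.θ) ((d.mat (Fin n) (Fin n)).id i h x.ψ)
  comp i j k h h' x := QForm.ext ((d.mat (Fin n) (Fin n)).comp i j k h h' x.θ)
    ((d.mat (Fin n) (Fin n)).comp i j k h h' x.ψ)
  coc i j h x := QForm.ext ((d.mat (Fin n) (Fin n)).coc i j h x.θ)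
    ((d.mat (Fin n) (Fin n)).coc i j h x.ψ)
  surj y := by
    have dm := d.mat (Fin n) (Fin n)
    have dp := dm.pi (Fin 3)
    obtain ⟨i, v, hv⟩ := (dm.pi (Fin 2)).surj ![y.θ, y.ψ]
    have h0 : (v 0).map (c i) = y.θ := congrFun hv 0
    have h1 : (v 1).map (c i) = y.ψ := congrFun hv 1
    obtain ⟨j, hj, e⟩ := dp.inj i (lhs ε (v 0) (v 1)) (rhs (v 0) (v 1)) (by
      funext a
      rw [← lhs_map, ← rhs_map, h0, h1]
      exact lhs_eq_rhs ε y a)
    refine ⟨j, mkQ ε ((v 0).map (f i j hj)) ((v 1).map (f i j hj)) (fun a => ?_), ?_⟩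
    · rw [lhs_map, rhs_map]
      exact congrFun e a
    · apply QForm.ext
      · exact (dm.coc i j hj (v 0)).trans h0
      · exact (dm.coc i j hj (v 1)).trans h1
  inj i x y h := by
    have dm := d.mat (Fin n) (Fin n)
    obtain ⟨j, hj, e⟩ := (dm.pi (Fin 2)).inj i ![x.θ, x.ψ] ![y.θ, y.ψ] (by
      funext a
      fin_cases a
      · exact congrArg QForm.θ h
      · exact congrArg QForm.ψ h)
    exact ⟨j, hj, QForm.ext (congrFun e 0) (congrFun e 1)⟩

/-- forms -/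
theorem DS.forms (d : DS (fun i j h => f i j h) (fun i => c i)) (ε : ℤˣ) :
    DS (X := fun i => Forms (S i) ε) (Y := Forms R ε)
      (fun i j h => formsMap ε (f i j h)) (fun i => formsMap ε (c i)) where
  dir := d.dir
  ne := d.ne
  id i h x := congrArg (Sigma.mk x.1) ((d.qform ε x.1).id i h x.2)
  comp i j k h h' x := congrArg (Sigma.mk x.1) ((d.qform ε x.1).comp i j k h h' x.2)
  coc i j h x := congrArg (Sigma.mk x.1) ((d.qform ε x.1).coc i j h x.2)
  surj y := by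
    obtain ⟨i, x, hx⟩ := (d.qform ε y.1).surj y.2
    exact ⟨i, ⟨y.1, x⟩, congrArg (Sigma.mk y.1) hx⟩
  inj i x y h := by
    obtain ⟨m, x⟩ := x
    obtain ⟨n, y⟩ := y
    have h1 : m = n := congrArg Sigma.fst h
    subst h1
    have h2 : x.map (c i) = y.map (c i) := eq_of_heq (Sigma.mk.inj h).2
    obtain ⟨j, hj, e⟩ := (d.qform ε m).inj i x y h2
    exact ⟨j, hj, congrArg (Sigma.mk m) e⟩

section lift

variable {ε : ℤˣ} (d : DS (fun i j h => f i j h) (fun i => c i))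

include d

/-- common lifts of two forms and two matrices -/
theorem lift_two {m n p q : ℕ} (x : QForm R ε (Fin m)) (y : QForm R ε (Fin n))
    (u : Matrix (Fin p) (Fin q) R) (v : Matrix (Fin m) (Fin m) R) :
    ∃ k, ∃ (x' : QForm (S k) ε (Fin m)) (y' : QForm (S k) ε (Fin n))
      (u' : Matrix (Fin p) (Fin q) (S k)) (v' : Matrix (Fin m) (Fin m) (S k)),
      x'.map (c k) = x ∧ y'.map (c k) = y ∧ u'.map (c k) = u ∧ v'.map (c k) = v := by
  obtain ⟨i1, x1, h1⟩ := (d.qform ε m).surj x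
  obtain ⟨i2, y1, h2⟩ := (d.qform ε n).surj y
  obtain ⟨i3, u1, h3⟩ := (d.mat (Fin p) (Fin q)).surj u
  obtain ⟨i4, v1, h4⟩ := (d.mat (Fin m) (Fin m)).surj v
  obtain ⟨k, hk⟩ := d.up ![i1, i2, i3, i4]
  refine ⟨k, x1.map (f i1 k (hk 0)), y1.map (f i2 k (hk 1)), u1.map (f i3 k (hk 2)),
    v1.map (f i4 k (hk 3)), ?_, ?_, ?_, ?_⟩
  · exact ((d.qform ε m).coc i1 k (hk 0) x1).trans h1
  · exact ((d.qform ε n).coc i2 k (hk 1) y1).trans h2
  · exact ((d.mat (Fin p) (Fin q)).coc i3 k (hk 2) u1).trans h3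
  · exact ((d.mat (Fin m) (Fin m)).coc i4 k (hk 3) v1).trans h4

/-- the relation of isometric forms lifts -/
theorem lift_isometric {m n : ℕ} {x : QForm R ε (Fin m)} {y : QForm R ε (Fin n)}
    (h : Isometric x y) : ∃ k, ∃ (x' : QForm (S k) ε (Fin m)) (y' : QForm (S k) ε (Fin n)),
      Isometric x' y' ∧ x'.map (c k) = x ∧ y'.map (c k) = y := by
  obtain ⟨u, h1, χ, h2⟩ := h
  obtain ⟨k, x', y', u', v', rfl, rfl, rfl, rfl⟩ := lift_two d x y u χ
  have e1 : (u' * x'.ψ * u'ᴴ).map (c k) = y'.ψ.map (c k) := by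
    rw [Matrix.map_mul, Matrix.map_mul, Matrix.conjTranspose_map _ (map_star (c k))]
    exact h1
  have e2 : (u'ᴴ * y'.θ * u').map (c k) = (x'.θ + (v' - dag ε v')).map (c k) := by
    rw [Matrix.map_mul, Matrix.map_mul, Matrix.conjTranspose_map _ (map_star (c k)),
      Matrix.map_add _ (map_add (c k)), Matrix.map_sub _ (map_sub (c k)), ← dag_map]
    exact h2
  obtain ⟨k1, hk1, e1⟩ := (d.mat _ _).inj k _ _ e1
  obtain ⟨k2, hk2, e2⟩ := (d.mat _ _).inj k _ _ e2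
  obtain ⟨l, h3, h4⟩ := d.dir k1 k2
  have e1' := (d.mat _ _).later hk1 h3 e1
  have e2' := (d.mat _ _).later hk2 h4 e2
  obtain ⟨g, hg⟩ : ∃ g, g = f k l (hk1.trans h3) := ⟨_, rfl⟩
  have hc : ∀ z : S k, c l (g z) = c k z := fun z => by rw [hg]; exact d.coc k l _ z
  refine ⟨l, x'.map g, y'.map g, ⟨u'.map g, ?_, v'.map g, ?_⟩, ?_, ?_⟩
  · change u'.map g * x'.ψ.map g * (u'.map g)ᴴ = y'.ψ.map g
    rw [← Matrix.conjTranspose_map _ (map_star g), ← Matrix.map_mul, ← Matrix.map_mul, hg]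
    exact e1'
  · change (u'.map g)ᴴ * y'.θ.map g * u'.map g = x'.θ.map g + (v'.map g - dag ε (v'.map g))
    rw [← Matrix.conjTranspose_map _ (map_star g), ← Matrix.map_mul, ← Matrix.map_mul, dag_map,
      ← Matrix.map_sub _ (map_sub g), ← Matrix.map_add _ (map_add g), hg]
    exact e2'
  · rw [hg]; exact (d.qform ε m).coc k l _ x'
  · rw [hg]; exact (d.qform ε n).coc k l _ y'

/-- hyperbolic forms lift -/
theorem lift_hyp {m : ℕ} {x : QForm R ε (Fin m)} (h : IsHyp x) :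
    ∃ k, ∃ x' : QForm (S k) ε (Fin m), IsHyp x' ∧ x'.map (c k) = x := by
  obtain ⟨l, h1, h2, h3, χ, h4⟩ := h
  obtain ⟨k, x', -, l', v', rfl, -, rfl, rfl⟩ := lift_two d x x l χ
  rw [QForm.map_e] at h2 h3
  rw [QForm.map_phi, ← Matrix.conjTranspose_map _ (map_star (c k)), dag_map,
    ← Matrix.map_mul, ← Matrix.map_sub _ (map_sub (c k)), ← Matrix.map_add _ (map_add (c k))] at h4
  rw [← Matrix.map_mul] at h1 h2 h3
  obtain ⟨j, hj, e⟩ := ((d.mat (Fin m) (Fin m)).pi (Fin 4)).inj k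
    ![l' * l', l' * x'.e, x'.e * l', x'.θ] ![l', l', l', l'ᴴ * x'.φ + (v' - dag ε v')] (by
      funext a
      fin_cases a
      · exact h1
      · exact h2
      · exact h3
      · exact h4)
  obtain ⟨g, hg⟩ : ∃ g, g = f k j hj := ⟨_, rfl⟩
  refine ⟨j, x'.map g, ⟨l'.map g, ?_, ?_, ?_, v'.map g, ?_⟩, ?_⟩
  · rw [← Matrix.map_mul, hg]; exact congrFun e 0
  · rw [QForm.map_e, ← Matrix.map_mul, hg]; exact congrFun e 1
  · rw [QForm.map_e, ← Matrix.map_mul, hg]; exact congrFun e 2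
  · rw [QForm.map_phi, ← Matrix.conjTranspose_map _ (map_star g), dag_map,
      ← Matrix.map_mul, ← Matrix.map_sub _ (map_sub g), ← Matrix.map_add _ (map_add g), hg]
    exact congrFun e 3
  · rw [hg]; exact (d.qform ε m).coc k j _ x'

/-- internal sums lift -/
theorem lift_sum {n : ℕ} {x y z : QForm R ε (Fin n)} (h1 : z.θ = x.θ + y.θ) (h2 : z.ψ = x.ψ + y.ψ)
    (h3 : x.φ * y.ψ = 0) (h4 : y.φ * x.ψ = 0) :
    ∃ k, ∃ x' y' z' : QForm (S k) ε (Fin n), (z'.θ = x'.θ + y'.θ ∧ z'.ψ = x'.ψ + y'.ψ ∧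
      x'.φ * y'.ψ = 0 ∧ y'.φ * x'.ψ = 0) ∧ x'.map (c k) = x ∧ y'.map (c k) = y ∧
      z'.map (c k) = z := by
  obtain ⟨i1, x1, rfl⟩ := (d.qform ε n).surj x
  obtain ⟨i2, y1, rfl⟩ := (d.qform ε n).surj y
  obtain ⟨i3, z1, rfl⟩ := (d.qform ε n).surj z
  obtain ⟨k, hk⟩ := d.up ![i1, i2, i3]
  obtain ⟨x', hx'⟩ : ∃ x', x' = x1.map (f i1 k (hk 0)) := ⟨_, rfl⟩
  obtain ⟨y', hy'⟩ : ∃ y', y' = y1.map (f i2 k (hk 1)) := ⟨_, rfl⟩
  obtain ⟨z', hz'⟩ : ∃ z', z' = z1.map (f i3 k (hk 2)) := ⟨_, rfl⟩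
  have ex : x'.map (c k) = x1.map (c i1) := by rw [hx']; exact (d.qform ε n).coc i1 k (hk 0) x1
  have ey : y'.map (c k) = y1.map (c i2) := by rw [hy']; exact (d.qform ε n).coc i2 k (hk 1) y1
  have ez : z'.map (c k) = z1.map (c i3) := by rw [hz']; exact (d.qform ε n).coc i3 k (hk 2) z1
  simp only [← ex, ← ey, ← ez] at h1 h2 h3 h4 ⊢
  have h1 : z'.θ.map (c k) = x'.θ.map (c k) + y'.θ.map (c k) := h1
  have h2 : z'.ψ.map (c k) = x'.ψ.map (c k) + y'.ψ.map (c k) := h2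
  have h3' : (x'.φ * y'.ψ).map (c k) = (0 : Matrix (Fin n) (Fin n) (S k)).map (c k) := by
    rw [Matrix.map_mul, ← QForm.map_phi, Matrix.map_zero _ (map_zero (c k))]
    exact h3
  have h4' : (y'.φ * x'.ψ).map (c k) = (0 : Matrix (Fin n) (Fin n) (S k)).map (c k) := by
    rw [Matrix.map_mul, ← QForm.map_phi, Matrix.map_zero _ (map_zero (c k))]
    exact h4
  rw [← Matrix.map_add _ (map_add (c k))] at h1 h2
  obtain ⟨j, hj, e⟩ := ((d.mat (Fin n) (Fin n)).pi (Fin 4)).inj k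
    ![z'.θ, z'.ψ, x'.φ * y'.ψ, y'.φ * x'.ψ] ![x'.θ + y'.θ, x'.ψ + y'.ψ, 0, 0] (by
      funext a
      fin_cases a
      · exact h1
      · exact h2
      · exact h3'
      · exact h4')
  obtain ⟨g, hg⟩ : ∃ g, g = f k j hj := ⟨_, rfl⟩
  have e0 : z'.θ.map g = (x'.θ + y'.θ).map g := by rw [hg]; exact congrFun e 0
  have e1 : z'.ψ.map g = (x'.ψ + y'.ψ).map g := by rw [hg]; exact congrFun e 1
  have e2 : (x'.φ * y'.ψ).map g = (0 : Matrix (Fin n) (Fin n) (S k)).map g := by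
    rw [hg]; exact congrFun e 2
  have e3 : (y'.φ * x'.ψ).map g = (0 : Matrix (Fin n) (Fin n) (S k)).map g := by
    rw [hg]; exact congrFun e 3
  refine ⟨j, x'.map g, y'.map g, z'.map g, ⟨?_, ?_, ?_, ?_⟩, ?_, ?_, ?_⟩
  · rw [Matrix.map_add _ (map_add g)] at e0; exact e0
  · rw [Matrix.map_add _ (map_add g)] at e1; exact e1
  · rw [Matrix.map_mul, Matrix.map_zero _ (map_zero g)] at e2
    rw [QForm.map_phi]; exact e2
  · rw [Matrix.map_mul, Matrix.map_zero _ (map_zero g)] at e3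
    rw [QForm.map_phi]; exact e3
  · rw [hg]; exact (d.qform ε n).coc k j _ x'
  · rw [hg]; exact (d.qform ε n).coc k j _ y'
  · rw [hg]; exact (d.qform ε n).coc k j _ z'

omit d in
theorem mapDomain_sub' {X Y : Type*} (g : X → Y) (a b : X →₀ ℚ) :
    Finsupp.mapDomain g (a - b) = Finsupp.mapDomain g a - Finsupp.mapDomain g b :=
  map_sub (Finsupp.mapDomain.addMonoidHom (M := ℚ) g) a b

/-- elements of the span of the relations lift -/
theorem lift_span {r : Forms R ε →₀ ℚ} (hr : r ∈ LSpan R ε) :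
    ∃ k, ∃ s ∈ LSpan (S k) ε, Finsupp.mapDomain (formsMap ε (c k)) s = r := by
  have df := (d.forms ε).finsupp ℚ
  have hpush : ∀ i j (h : i ≤ j) (s : Forms (S i) ε →₀ ℚ), s ∈ LSpan (S i) ε →
      Finsupp.mapDomain (formsMap ε (f i j h)) s ∈ LSpan (S j) ε :=
    fun i j h s hs => lspan_map ε (f i j h) hs
  induction hr using Submodule.span_induction with
  | mem r hr =>
    rcases hr with ⟨x, y, h, rfl⟩ | ⟨n, x, y, z, h1, h2, h3, h4, rfl⟩ | ⟨x, h, rfl⟩
    · obtain ⟨m, x⟩ := x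
      obtain ⟨n, y⟩ := y
      have h : Isometric x y := h
      obtain ⟨k, x', y', h', rfl, rfl⟩ := lift_isometric d h
      refine ⟨k, Finsupp.single ⟨m, x'⟩ 1 - Finsupp.single ⟨n, y'⟩ 1,
        Submodule.subset_span (Or.inl ⟨⟨m, x'⟩, ⟨n, y'⟩, h', rfl⟩), ?_⟩
      rw [mapDomain_sub', Finsupp.mapDomain_single, Finsupp.mapDomain_single]
      rfl
    · obtain ⟨k, x', y', z', h', rfl, rfl, rfl⟩ := lift_sum d h1 h2 h3 h4
      refine ⟨k, Finsupp.single ⟨n, z'⟩ 1 - Finsupp.single ⟨n, x'⟩ 1 - Finsupp.single ⟨n, y'⟩ 1,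
        Submodule.subset_span (Or.inr (Or.inl ⟨n, x', y', z', h'.1, h'.2.1, h'.2.2.1, h'.2.2.2,
          rfl⟩)), ?_⟩
      rw [mapDomain_sub', mapDomain_sub', Finsupp.mapDomain_single, Finsupp.mapDomain_single,
        Finsupp.mapDomain_single]
      rfl
    · obtain ⟨m, x⟩ := x
      have h : IsHyp x := h
      obtain ⟨k, x', h', rfl⟩ := lift_hyp d h
      refine ⟨k, Finsupp.single ⟨m, x'⟩ 1,
        Submodule.subset_span (Or.inr (Or.inr ⟨⟨m, x'⟩, h', rfl⟩)), ?_⟩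
      rw [Finsupp.mapDomain_single]
      rfl
  | zero =>
    obtain ⟨k⟩ := d.ne
    exact ⟨k, 0, Submodule.zero_mem _, Finsupp.mapDomain_zero⟩
  | add r r' _ _ h h' =>
    obtain ⟨i, s, hs, rfl⟩ := h
    obtain ⟨j, s', hs', rfl⟩ := h'
    obtain ⟨k, hik, hjk⟩ := d.dir i j
    refine ⟨k, Finsupp.mapDomain (formsMap ε (f i k hik)) s +
      Finsupp.mapDomain (formsMap ε (f j k hjk)) s',
      Submodule.add_mem _ (hpush _ _ _ _ hs) (hpush _ _ _ _ hs'), ?_⟩
    rw [Finsupp.mapDomain_add]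
    exact congrArg₂ (· + ·) (df.coc i k hik s) (df.coc j k hjk s')
  | smul q r _ h =>
    obtain ⟨i, s, hs, rfl⟩ := h
    exact ⟨i, q • s, Submodule.smul_mem _ q hs, Finsupp.mapDomain_smul q s⟩

/-- **the rational L-groups commute with directed colimits** (injectivity) -/
theorem lq_inj {i : I} (z : LQ (S i) ε) (hz : LQ.map ε (c i) z = 0) :
    ∃ j, ∃ h : i ≤ j, LQ.map ε (f i j h) z = 0 := by
  obtain ⟨r, rfl⟩ := Submodule.mkQ_surjective (LSpan (S i) ε) z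
  have h1 : Finsupp.mapDomain (formsMap ε (c i)) r ∈ LSpan R ε := by
    rw [← Submodule.Quotient.mk_eq_zero]
    exact hz
  obtain ⟨k, s, hs, hsr⟩ := lift_span d h1
  have df := (d.forms ε).finsupp ℚ
  obtain ⟨l, hil, hkl⟩ := d.dir i k
  obtain ⟨j, hlj, e⟩ := df.inj l (Finsupp.mapDomain (formsMap ε (f i l hil)) r)
    (Finsupp.mapDomain (formsMap ε (f k l hkl)) s) (by
      have h2 := df.coc i l hil r
      have h3 := df.coc k l hkl s
      exact h2.trans (hsr.symm.trans h3.symm))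
  refine ⟨j, hil.trans hlj, ?_⟩
  have h2 := df.comp i l j hil hlj r
  have h3 := df.comp k l j hkl hlj s
  have h4 : Finsupp.mapDomain (formsMap ε (f i j (hil.trans hlj))) r ∈ LSpan (S j) ε := by
    have h5 : Finsupp.mapDomain (formsMap ε (f i j (hil.trans hlj))) r =
        Finsupp.mapDomain (formsMap ε (f k j (hkl.trans hlj))) s := h2.symm.trans (e.trans h3)
    rw [h5]
    exact lspan_map ε (f k j (hkl.trans hlj)) hs
  exact (Submodule.Quotient.mk_eq_zero _).2 h4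

end lift

end Pool.Agent.T2h60.LA
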