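import Pool.Agent.Y483.LGroup
import Pool.Agent.Y477.IW.GR
import Mathlib.Algebra.Category.Grp.Basic
import Mathlib.Algebra.Category.ModuleCat.Basic

/-!
# The rational quadratic L-groups of group rings over a ring with involution

The functor `G ↦ L₀(A[G]; ε) ⊗ ℚ` for any ring with involution `A`.
-/

set_option autoImplicit false

namespace Pool.Agent.T2h60.LA

open Pool.Agent.Y483 Pool.Agent.Y477.IW CategoryTheory

variable (A : Type) [Ring A] [StarRing A] (ε : ℤˣ)

/-- The vector space `L₀(A[G]; ε) ⊗ ℚ`. -/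
noncomputable def lObj (G : Type) [Group G] : ModuleCat.{0} ℚ :=
  ModuleCat.of ℚ (LQ (MonoidAlgebra A G) ε)

/-- The map `L₀(A[G]; ε) ⊗ ℚ → L₀(A[K]; ε) ⊗ ℚ` of a homomorphism `G → K`. -/
noncomputable def lMor {G K : Type} [Group G] [Group K] (f : G →* K) : lObj A ε G ⟶ lObj A ε K :=
  ModuleCat.ofHom (LQ.map ε (grMap A f))

theorem map_id_gr (G : Type) [Group G] (z : LQ (MonoidAlgebra A G) ε) :
    LQ.map ε (grMap A (MonoidHom.id G)) z = z := by
  rw [grMap_id, LQ.map_id']

theorem map_comp_gr {G K L : Type} [Group G] [Group K] [Group L] (f : G →* K) (g : K →* L)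
    (z : LQ (MonoidAlgebra A G) ε) :
    LQ.map ε (grMap A (g.comp f)) z = LQ.map ε (grMap A g) (LQ.map ε (grMap A f) z) := by
  rw [grMap_comp, LQ.map_comp']

theorem lMor_id (G : Type) [Group G] : lMor A ε (MonoidHom.id G) = 𝟙 (lObj A ε G) :=
  ModuleCat.hom_ext (LinearMap.ext fun z => map_id_gr A ε G z)

theorem lMor_comp {G K L : Type} [Group G] [Group K] [Group L] (f : G →* K) (g : K →* L) :
    lMor A ε (g.comp f) = lMor A ε f ≫ lMor A ε g :=
  ModuleCat.hom_ext (LinearMap.ext fun z => map_comp_gr A ε f g z)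

/-- The functor `G ↦ L₀(A[G]; ε) ⊗ ℚ`. -/
noncomputable def lA : GrpCat.{0} ⥤ ModuleCat.{0} ℚ where
  obj G := lObj A ε G
  map f := lMor A ε f.hom
  map_id G := lMor_id A ε G
  map_comp f g := lMor_comp A ε f.hom g.hom

end Pool.Agent.T2h60.LA
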